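import Mathlib

namespace Pool.Agent.Results.MP_591444_an.No

open Topology Filter Set WeakDual

structure Chart (Y : Type) [TopologicalSpace Y] where
  n : ℕ
  U : Set Y
  D : Set (Fin n → ℂ)
  φ : Y → Fin n → ℂ
  openU : IsOpen U
  openD : IsOpen D
  emb : IsEmbedding (U.restrict φ)
  sub : φ '' U ⊆ D
  an : ∀ z ∈ D, ∃ W ∈ 𝓝 z, ∃ (k : ℕ) (F : Fin k → (Fin n → ℂ) → ℂ),
    (∀ j, AnalyticOnNhd ℂ (F j) W) ∧ ∀ w ∈ W, w ∈ φ '' U ↔ ∀ j, F j w = 0

def HolAt {Y : Type} [TopologicalSpace Y] (c : Chart Y) (f : Y → ℂ) (y : Y) : Prop :=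
  ∃ F, AnalyticAt ℂ F (c.φ y) ∧ f =ᶠ[𝓝 y] F ∘ c.φ

def Hol {Y : Type} [TopologicalSpace Y] (S : Set (Chart Y)) (f : Y → ℂ) : Prop :=
  ∀ c ∈ S, ∀ y ∈ c.U, HolAt c f y

def IsStein {Y : Type} [TopologicalSpace Y] (S : Set (Chart Y)) : Prop :=
  T2Space Y ∧ SecondCountableTopology Y ∧ (∀ y, ∃ c ∈ S, y ∈ c.U) ∧
    (∀ c ∈ S, ∀ d ∈ S, ∀ y ∈ c.U ∩ d.U, ∀ i, HolAt c (fun x => d.φ x i) y) ∧
    (∀ x y, x ≠ y → ∃ f, Hol S f ∧ f x ≠ f y) ∧
    ∀ K, IsCompact K → IsCompact {y | ∀ f, Hol S f → ∀ M, (∀ x ∈ K, ‖f x‖ ≤ M) → ‖f y‖ ≤ M}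

def LocStein (A : Type) [CommRing A] [Algebra ℂ A] [TopologicalSpace A] : Prop :=
  ∃ (Y : Type) (_ : TopologicalSpace Y) (e : Y → characterSpace ℂ A) (S : Set (Chart Y)),
    IsOpenEmbedding e ∧ Nonempty Y ∧ IsStein S ∧ (∀ a, Hol S fun y => e y a) ∧
    ∀ f, Hol S f → ∀ K, IsCompact K → ∀ ε > 0, ∃ a, ∀ y ∈ K, ‖f y - e y a‖ < ε

def Ent : Subalgebra ℂ C(ℂ, ℂ) where
  carrier := {f | Differentiable ℂ f}
  mul_mem' := fun a b => Differentiable.mul a b
  add_mem' := fun a b => Differentiable.add a b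
  algebraMap_mem' := fun c => differentiable_const c

noncomputable def mk {A : Type} [CommRing A] [Algebra ℂ A] [TopologicalSpace A] (f : A →ₐ[ℂ] ℂ)
    (hf : Continuous f) : characterSpace ℂ A :=
  ⟨⟨f.toLinearMap, hf⟩, by
    rw [CharacterSpace.eq_set_map_one_map_mul]; exact ⟨map_one f, map_mul f⟩⟩

noncomputable def cmp {A B : Type} [CommRing A] [Algebra ℂ A] [TopologicalSpace A] [CommRing B]
    [Algebra ℂ B] [TopologicalSpace B] (p : A →ₐ[ℂ] B) (hp : Continuous p)
    (χ : characterSpace ℂ B) : characterSpace ℂ A :=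
  mk ((CharacterSpace.toAlgHom χ).comp p) ((map_continuous χ).comp hp)

theorem ev_ind (A : Type) [CommRing A] [Algebra ℂ A] [TopologicalSpace A] :
    IsInducing fun (χ : characterSpace ℂ A) (a : A) => χ a :=
  (IsInducing.mk rfl : IsInducing fun (χ : WeakDual ℂ A) (a : A) => χ a).comp IsInducing.subtypeVal

theorem cmp_emb {A B : Type} [CommRing A] [Algebra ℂ A] [TopologicalSpace A] [CommRing B]
    [Algebra ℂ B] [TopologicalSpace B] (p : A →ₐ[ℂ] B) (hp : Continuous p)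
    (hs : Function.Surjective p) : IsEmbedding (cmp p hp) := by
  obtain ⟨r, hr⟩ := hs.hasRightInverse
  have hc : Continuous (cmp p hp) := (ev_ind A).continuous_iff.2 (continuous_pi fun a =>
    (continuous_apply (p a)).comp (ev_ind B).continuous)
  refine ⟨IsInducing.of_comp hc (g := fun χ b => χ (r b)) (continuous_pi fun b =>
    (continuous_apply (r b)).comp (ev_ind A).continuous) ?_, fun χ ψ h => ?_⟩
  · convert ev_ind B using 1
    ext χ b
    exact congrArg χ (hr b)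
  · ext b
    rw [← hr b]
    exact congrArg (fun χ : characterSpace ℂ A => χ (r b)) h

theorem core {Y : Type} [TopologicalSpace Y] {G : Y → unitInterval} (hG : IsOpenEmbedding G)
    (c : Chart Y) {p : Y} (hp : p ∈ c.U) (h : ∀ f : C(unitInterval, ℂ), HolAt c (f ∘ G) p) :
    False := by
  have := hG.locallyCompactSpace
  have hφ : ContinuousOn c.φ c.U := continuousOn_iff_continuous_restrict.2 c.emb.continuous
  obtain ⟨K, hK, hKU, hKc⟩ := local_compact_nhds (c.openU.mem_nhds hp)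
  have := isCompact_iff_compactSpace.1 hKc
  have h1 : Continuous fun x : K => ((√‖c.φ x - c.φ p‖ : ℝ) : ℂ) :=
    Complex.continuous_ofReal.comp (((continuousOn_iff_continuous_restrict.1
      (hφ.mono hKU)).sub continuous_const).norm.sqrt)
  obtain ⟨f, hf⟩ := ContinuousMap.exists_extension' ((hG.continuous.comp
    continuous_subtype_val).isClosedEmbedding (hG.injective.comp Subtype.val_injective)) ⟨_, h1⟩
  have hf' : ∀ x ∈ K, f (G x) = (√‖c.φ x - c.φ p‖ : ℝ) := fun x hx => congrFun hf ⟨x, hx⟩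
  obtain ⟨F, hF, hfF⟩ := h f
  have ht := hφ.continuousAt (c.openU.mem_nhds hp)
  obtain ⟨C, hC⟩ := (hF.differentiableAt.isBigO_sub.comp_tendsto ht).bound
  have h0 : F (c.φ p) = 0 := by
    have := hfF.self_of_nhds
    simp only [Function.comp, hf' p (mem_of_mem_nhds hK)] at this
    simpa using this.symm
  have h2 : ∀ᶠ y in 𝓝 p, C * √‖c.φ y - c.φ p‖ < 1 := by
    have : ContinuousAt (fun y => C * √‖c.φ y - c.φ p‖) p :=
      continuousAt_const.mul (ht.sub continuousAt_const).norm.sqrt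
    exact this.eventually (gt_mem_nhds (by simp))
  have h3 : ∀ᶠ y in 𝓝 p, y = p := by
    filter_upwards [hK, hC, hfF, h2] with y a1 a2 a3 a4
    simp only [Function.comp, hf' y a1] at a2 a3
    rw [← a3, h0, sub_zero, Complex.norm_real, Real.norm_of_nonneg (Real.sqrt_nonneg _)] at a2
    have a5 := Real.mul_self_sqrt (norm_nonneg (c.φ y - c.φ p))
    have a6 : √‖c.φ y - c.φ p‖ = 0 := by
      by_contra a
      have := mul_lt_mul_of_pos_right a4 ((Real.sqrt_nonneg _).lt_of_ne' a)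
      rw [mul_assoc, a5] at this
      linarith
    rw [a6, mul_zero, eq_comm, norm_eq_zero, sub_eq_zero] at a5
    exact congrArg Subtype.val (c.emb.injective (a₁ := ⟨y, hKU a1⟩) (a₂ := ⟨p, hp⟩) a5)
  have h4 : ∀ᶠ t in 𝓝 (G p), t = G p := by
    rw [← hG.map_nhds_eq]
    exact h3.mono fun y hy => congrArg G hy
  obtain ⟨t, a, b⟩ := ((h4.filter_mono nhdsWithin_le_nhds).and
    (self_mem_nhdsWithin (s := {G p}ᶜ))).exists
  exact b a

theorem nl {B : Type} [CommRing B] [Algebra ℂ B] [TopologicalSpace B]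
    (ι : C(unitInterval, ℂ) →ₐ[ℂ] B) (hι : Continuous ι) (ρ : B →ₐ[ℂ] C(unitInterval, ℂ))
    (hρ : Continuous ρ) (a1 : ∀ b, ι (ρ b) = b) (a2 : ∀ f, ρ (ι f) = f) : ¬ LocStein B := by
  rintro ⟨Y, _, e, S, he, ⟨p⟩, hS, h1, -⟩
  obtain ⟨c, hc, hp⟩ := hS.2.2.1 p
  have ho : IsOpenEmbedding (cmp ι hι) := by
    refine ⟨cmp_emb ι hι fun b => ⟨_, a1 b⟩, ?_⟩
    convert isOpen_univ
    exact eq_univ_of_forall fun ψ => ⟨cmp ρ hρ ψ, by ext f; exact congrArg ψ (a2 f)⟩
  refine core ((CharacterSpace.homeoEval unitInterval ℂ).symm.isOpenEmbedding.comp (ho.comp he))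
    c hp fun f => ?_
  convert h1 (ι f) c hc p hp using 2 with y
  exact congrArg (fun χ : characterSpace ℂ C(unitInterval, ℂ) => χ f)
    ((CharacterSpace.homeoEval unitInterval ℂ).apply_symm_apply (cmp ι hι (e y)))

theorem one : LocStein ℂ := by
  have hol : ∀ (c : Chart Unit) (f : Unit → ℂ) (y : Unit), HolAt c f y := fun c f y =>
    ⟨fun _ => f (), analyticAt_const, Eventually.of_forall fun _ => rfl⟩
  refine ⟨Unit, inferInstance, fun _ => mk (AlgHom.id ℂ ℂ) continuous_id,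
    {⟨0, univ, univ, fun _ => 0, isOpen_univ, isOpen_univ, IsEmbedding.of_subsingleton _,
      subset_univ _, fun z _ => ⟨univ, univ_mem, 0, fun _ _ => 0, fun _ => analyticOnNhd_const,
        fun w _ => ⟨fun _ _ => rfl, fun _ => ⟨(), trivial, Subsingleton.elim _ _⟩⟩⟩⟩},
    ⟨IsEmbedding.of_subsingleton _, ?_⟩, ⟨()⟩, ⟨inferInstance, inferInstance,
      fun y => ⟨_, rfl, mem_univ _⟩, fun c _ d _ y _ i => hol _ _ _,
      fun x y h => (h rfl).elim, fun K _ => (toFinite _).isCompact⟩,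
    fun a c _ y _ => hol _ _ _, fun f _ K _ ε hε => ⟨f (), fun y _ => ?_⟩⟩
  · convert isOpen_univ
    refine eq_univ_of_forall fun χ => ⟨(), ?_⟩
    ext a
    exact (AlgHomClass.commutes χ a).symm
  · exact (show ‖f () - f ()‖ = 0 by simp).trans_lt hε

theorem two : LocStein Ent := by
  let c : Chart ℂ := ⟨1, univ, univ, fun y _ => y, isOpen_univ, isOpen_univ,
    (Homeomorph.funUnique (Fin 1) ℂ).symm.isEmbedding.comp IsEmbedding.subtypeVal,
    subset_univ _, fun z _ => ⟨univ, univ_mem, 0, fun _ _ => 0, fun _ => analyticOnNhd_const,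
      fun w _ => ⟨fun _ _ => rfl, fun _ => ⟨w 0, trivial, funext fun i => by
        rw [Subsingleton.elim i 0]⟩⟩⟩⟩
  have h1 : ∀ f : ℂ → ℂ, Hol {c} f ↔ Differentiable ℂ f := fun f => by
    constructor
    · intro h y
      obtain ⟨F, a, b⟩ := h c rfl y trivial
      exact (a.differentiableAt.comp y (differentiableAt_pi.2 fun _ =>
        differentiableAt_id)).congr_of_eventuallyEq b
    · rintro h _ rfl y -
      exact ⟨fun w => f (w 0), (h.analyticAt y).comp_of_eq
        ((ContinuousLinearMap.proj (R := ℂ) (φ := fun _ : Fin 1 => ℂ) 0).analyticAt _) rfl,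
        Eventually.of_forall fun _ => rfl⟩
  let z : Ent := ⟨ContinuousMap.id ℂ, differentiable_id⟩
  let e : ℂ → characterSpace ℂ Ent := fun y => mk ((ContinuousMap.evalAlgHom ℂ ℂ y).comp Ent.val)
    ((continuous_eval_const y).comp continuous_subtype_val)
  have hc : Continuous e := (ev_ind _).continuous_iff.2 (continuous_pi fun a => a.1.continuous)
  have hz : Continuous fun χ : characterSpace ℂ Ent => χ z :=
    (continuous_apply z).comp (ev_ind _).continuous
  refine ⟨ℂ, inferInstance, e, {c}, ⟨IsEmbedding.of_comp hc hz IsEmbedding.id, ?_⟩, ⟨0⟩,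
    ⟨inferInstance, inferInstance, fun y => ⟨c, rfl, trivial⟩, ?_,
      fun x y h => ⟨id, (h1 _).2 differentiable_id, h⟩, fun K hK => ?_⟩, fun a => (h1 _).2 a.2,
    fun f hf K _ ε hε => ⟨⟨⟨f, ((h1 f).1 hf).continuous⟩, (h1 f).1 hf⟩, fun y _ =>
      (show ‖f y - f y‖ = 0 by simp).trans_lt hε⟩⟩
  · convert isOpen_univ
    refine eq_univ_of_forall fun χ => ⟨χ z, ?_⟩
    ext f
    have hd : Differentiable ℂ (dslope f.1 (χ z)) := differentiableOn_univ.1
      ((Complex.differentiableOn_dslope univ_mem).2 (Differentiable.differentiableOn f.2))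
    have : f = (z - algebraMap ℂ Ent (χ z)) * ⟨⟨_, hd.continuous⟩, hd⟩ +
        algebraMap ℂ Ent (f.1 (χ z)) := by
      ext w
      exact (sub_eq_iff_eq_add.1 (sub_smul_dslope f.1 (χ z) w).symm)
    have h2 := congrArg χ this
    have h3 : χ (z - algebraMap ℂ Ent (χ z)) = 0 :=
      (map_sub (CharacterSpace.toAlgHom χ) _ _).trans
        (sub_eq_zero.2 (AlgHomClass.commutes χ (χ z)).symm)
    rw [map_add, map_mul, h3, zero_mul, zero_add, AlgHomClass.commutes] at h2
    exact h2.symm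
  · rintro _ rfl _ rfl y - i
    exact (h1 id).2 differentiable_id c rfl y trivial
  · obtain ⟨M, hM⟩ := hK.isBounded.exists_norm_le
    refine (isCompact_closedBall (0:ℂ) M).of_isClosed_subset ?_ fun y hy =>
      mem_closedBall_zero_iff.2 (hy id ((h1 _).2 differentiable_id) M hM)
    simp only [ofPred_forall]
    exact isClosed_iInter fun f => isClosed_iInter fun hf => isClosed_iInter fun M =>
      isClosed_iInter fun _ => isClosed_le ((h1 f).1 hf).continuous.norm continuous_const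

theorem result : LocStein ℂ ∧ LocStein Ent ∧ ∀ (A : Type) [CommRing A] [Algebra ℂ A] [TopologicalSpace A]
    [IsTopologicalRing A] [ContinuousSMul ℂ A] [T2Space A], LocStein A →
    LocStein (A × C(unitInterval, ℂ)) ∧ ∃ B : Subalgebra ℂ (A × C(unitInterval, ℂ)),
      IsClosed (B : Set (A × C(unitInterval, ℂ))) ∧ ¬ LocStein B := by
  refine ⟨one, two, fun A _ _ _ _ _ _ ⟨Y, _, e, S, he, hY, hS, h1, h2⟩ => ⟨?_, ?_⟩⟩
  · have hp : Continuous (AlgHom.fst ℂ A C(unitInterval, ℂ)) := continuous_fst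
    refine ⟨Y, _, cmp _ hp ∘ e, S, IsOpenEmbedding.comp ⟨cmp_emb _ hp Prod.fst_surjective, ?_⟩ he,
      hY, hS, fun a => h1 a.1, fun f hf K hK ε hε => ?_⟩
    · have : range (cmp _ hp) = {ψ | ψ (1, 0) ≠ 0} := by
        ext ψ
        constructor
        · rintro ⟨χ, rfl⟩
          exact (map_one χ).trans_ne one_ne_zero
        intro h
        have a1 : ∀ c, ψ (0, c) = 0 := fun c => by
          refine (mul_eq_zero.1 ?_).resolve_left h
          rw [← map_mul]; simp [← Prod.zero_eq_mk]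
        have a2 : ∀ a c, ψ (a, c) = ψ (a, 0) := fun a c => by
          rw [← add_zero (ψ (a, 0)), ← a1 c, ← map_add]; simp
        refine ⟨⟨(CharacterSpace.toCLM ψ).comp (ContinuousLinearMap.inl ℂ _ _), ?_⟩, ?_⟩
        · rw [CharacterSpace.eq_set_map_one_map_mul]
          refine ⟨(a2 1 1).symm.trans (map_one ψ), fun x y => ?_⟩
          show ψ (x * y, 0) = ψ (x, 0) * ψ (y, 0)
          rw [← map_mul]; simp
        · ext ⟨a, c⟩
          exact (a2 a c).symm
      rw [this]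
      exact isOpen_ne_fun ((continuous_apply _).comp (ev_ind _).continuous) continuous_const
    · obtain ⟨a, ha⟩ := h2 f hf K hK ε hε
      exact ⟨(a, 0), ha⟩
  obtain ⟨q, hq⟩ : ∃ q : C(unitInterval, ℂ) →ₐ[ℂ] A, Continuous q :=
    ⟨(Algebra.ofId ℂ A).comp (ContinuousMap.evalAlgHom ℂ ℂ 0),
      (continuous_algebraMap ℂ A).comp (continuous_eval_const _)⟩
  refine ⟨AlgHom.equalizer (AlgHom.fst ℂ _ _) (q.comp (AlgHom.snd ℂ _ _)),
    isClosed_eq continuous_fst (hq.comp continuous_snd), ?_⟩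
  exact nl (B := AlgHom.equalizer (AlgHom.fst ℂ A C(unitInterval, ℂ)) (q.comp (AlgHom.snd ℂ A _)))
    ((q.prod (AlgHom.id ℂ _)).codRestrict _ fun _ => rfl) ((hq.prodMk continuous_id).subtype_mk _)
    ((AlgHom.snd ℂ _ _).comp (Subalgebra.val _)) (continuous_snd.comp continuous_subtype_val)
    (fun b => Subtype.ext (Prod.ext b.2.symm rfl)) fun _ => rfl

end Pool.Agent.Results.MP_591444_an.No
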